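import Mathlib
import Pool.Agent.R899.TwoBridge.Conway

/-!
# MP_7cfe9c_gt: the coefficients of Alexander and Conway polynomials of two-bridge links

Every two-bridge link (oriented) is the boundary of a linear plumbing of `n` unknotted annuli
with `b 0, …, b (n-1)` full twists, all `b i ≠ 0` (even continued fraction
`[2 b_0, -2 b_1, …]`); it is a knot iff `n = 2 g` is even.
`seifert n b` is the Seifert matrix of this surface (diagonal entries `b i`, entries
`(i, i+1)` equal to `1`, all others `0`), `alexander n b = det (V - t Vᵀ)` is the Alexander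
polynomial (up to a unit) and `conway n b` is the Conway polynomial, the Euler continuant of
`b 0 z, …, b (n-1) z`.
-/

namespace Pool.Agent.Results.MP_7cfe9c_gt.TwoBridge

open Polynomial Pool.Agent.R899.TB

/-- `absCoeff g b i` is the number `a i` of the question: the absolute value of the coefficient
of `t ^ (g + i)` in `det (V - t Vᵀ)`, i.e. of `t ^ i` in the symmetrised polynomial. -/
noncomputable def absCoeff (g : ℕ) (b : ℕ → ℤ) (i : ℕ) : ℤ :=
  |(alexander (2 * g) b).coeff (g + i)|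

/-- `(x l, …, x r)` is convex. -/
def ConvexOn (x : ℕ → ℤ) (l r : ℕ) : Prop :=
  ∀ i, l < i → i < r → 2 * x i ≤ x (i - 1) + x (i + 1)

/-- `(x l, …, x r)` is concave. -/
def ConcaveOn (x : ℕ → ℤ) (l r : ℕ) : Prop :=
  ∀ i, l < i → i < r → x (i - 1) + x (i + 1) ≤ 2 * x i

/-- the Fibonacci coefficients `|c_m| α_i` -/
def al (n : ℕ) (b : ℕ → ℤ) (i : ℕ) : ℤ := dd (K n b) i

theorem unimodal (Q : ℕ → ℤ) (m : ℕ)
    (h : ∀ i j, 1 ≤ i → i ≤ j → j ≤ m → Q i < Q (i - 1) → Q j ≤ Q (j - 1)) :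
    ∃ p ≤ m, (∀ i, 1 ≤ i → i ≤ p → Q (i - 1) ≤ Q i) ∧
      (∀ i, p < i → i ≤ m → Q i ≤ Q (i - 1)) := by
  classical
  by_cases hex : ∃ i, 1 ≤ i ∧ i ≤ m ∧ Q i < Q (i - 1)
  · obtain ⟨h1, h2, h3⟩ := Nat.find_spec hex
    refine ⟨Nat.find hex - 1, by omega, ?_, ?_⟩
    · intro i hi1 hi2
      by_contra hc
      have := Nat.find_min' hex ⟨hi1, by omega, not_le.mp hc⟩
      omega
    · intro i hi1 hi2
      exact h _ i h1 (by omega) hi2 h3
  · refine ⟨m, le_refl _, ?_, ?_⟩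
    · intro i hi1 hi2
      by_contra hc
      exact hex ⟨i, hi1, hi2, not_le.mp hc⟩
    · intro i hi1 hi2; omega

theorem K_zero (n : ℕ) (b : ℕ → ℤ) (hb : ∀ i < n, b i ≠ 0) :
    K n b 0 = ∏ j ∈ Finset.range n, |b j| := by
  suffices H : ∀ n, (∀ b : ℕ → ℤ, (∀ i < n, b i ≠ 0) → K n b 0 = ∏ j ∈ Finset.range n, |b j|) ∧
      (∀ b : ℕ → ℤ, (∀ i < n + 1, b i ≠ 0) → K (n + 1) b 0 = ∏ j ∈ Finset.range (n + 1), |b j|) by
    exact (H n).1 b hb
  intro n
  induction n with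
  | zero =>
    constructor
    · intro b _; simp [K]
    · intro b _; simp [K]
  | succ n ih =>
    refine ⟨ih.2, ?_⟩
    intro b hb
    have hK : K (n + 1 + 1) b 0 = |b 0| * (K (n + 1) (fun j => b (j + 1)) 0
      + K (n + 1) (fun j => b (j + 1)) (0 - 1))
      - ((b 0).sign * (b 1).sign) * K n (fun j => b (j + 2)) (0 - 1) := rfl
    have hst1 := St_K (n + 1) (fun j => b (j + 1)) (fun i hi => hb (i + 1) (by omega))
    have hst2 := St_K n (fun j => b (j + 2)) (fun i hi => hb (i + 2) (by omega))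
    rw [hK, hst1.negX (0 - 1) (by norm_num), hst2.negX (0 - 1) (by norm_num),
      ih.2 (fun j => b (j + 1)) (fun i hi => hb (i + 1) (by omega)),
      Finset.prod_range_succ' (fun j => |b j|) (n + 1)]
    ring

theorem K_pos (n : ℕ) (b : ℕ → ℤ) (hb : ∀ i < n, b i ≠ 0) (j : ℕ) (hj : 2 * j ≤ n + 1) :
    0 < K n b j := by
  induction j with
  | zero => exact (St_K n b hb).X0
  | succ j ih =>
    have h1 := ih (by omega)
    have h2 := (St_K n b hb).pairG.Qnn ((j + 1 : ℕ) : ℤ) (by push_cast; omega)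
    unfold dd at h2
    have e : (((j + 1 : ℕ) : ℤ) - 1) = j := by push_cast; ring
    rw [e] at h2
    linarith

theorem al_nonneg (n : ℕ) (b : ℕ → ℤ) (hb : ∀ i < n, b i ≠ 0) (i : ℕ) (hi : i ≤ n / 2) :
    0 ≤ al n b i :=
  (St_K n b hb).pairG.Qnn (i : ℤ) (by omega)

theorem al_log (n : ℕ) (b : ℕ → ℤ) (hb : ∀ i < n, b i ≠ 0) (i j : ℕ) (hi : 1 ≤ i) (hij : i ≤ j)
    (hj : j ≤ n / 2) : al n b j * al n b (i - 1) ≤ al n b i * al n b (j - 1) := by
  have h := (St_K n b hb).pairG.QQ1 (i : ℤ) (j : ℤ) (by omega) (by omega)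
  simp only at h
  unfold al
  have e1 : ((i - 1 : ℕ) : ℤ) = (i : ℤ) - 1 := by omega
  have e2 : ((j - 1 : ℕ) : ℤ) = (j : ℤ) - 1 := by omega
  rw [e1, e2]
  exact h

theorem al_unimodal (n : ℕ) (b : ℕ → ℤ) (hb : ∀ i < n, b i ≠ 0) :
    ∃ p ≤ n / 2, (∀ i, 1 ≤ i → i ≤ p → al n b (i - 1) ≤ al n b i) ∧
      (∀ i, p < i → i ≤ n / 2 → al n b i ≤ al n b (i - 1)) := by
  apply unimodal
  intro i j hi hij hj hlt
  have h := al_log n b hb i j hi hij hj
  have h1 := al_nonneg n b hb i (by omega)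
  have h2 := al_nonneg n b hb (j - 1) (by omega)
  have h3 : al n b i * al n b (j - 1) ≤ al n b (i - 1) * al n b (j - 1) :=
    mul_le_mul_of_nonneg_right hlt.le h2
  have h4 : 0 < al n b (i - 1) := lt_of_le_of_lt h1 hlt
  nlinarith

theorem absCoeff_eq (g : ℕ) (b : ℕ → ℤ) (hb : ∀ i < 2 * g, b i ≠ 0) (i : ℕ) (hi : i ≤ g) :
    absCoeff g b i = K (2 * g) b ((g : ℤ) - i) := by
  unfold absCoeff
  rw [coeff_alexander _ _ hb, abs_mul, abs_mul, abs_pow, abs_neg, abs_one, one_pow]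
  have h1 : |sg (2 * g) b| = 1 := by
    rcases sg_sq _ _ hb with h | h <;> rw [h] <;> simp
  have h2 := (St_K (2 * g) b hb).palX ((g : ℤ) - i)
  have e : ((2 * g : ℕ) : ℤ) - ((g : ℤ) - i) = ((g + i : ℕ) : ℤ) := by push_cast; ring
  rw [e] at h2
  rw [h1, h2]
  have h3 := K_pos (2 * g) b hb (g - i) (by omega)
  have e2 : ((g - i : ℕ) : ℤ) = (g : ℤ) - i := by omega
  rw [e2] at h3
  rw [abs_of_pos h3]
  ring

theorem absCoeff_sub (g : ℕ) (b : ℕ → ℤ) (hb : ∀ i < 2 * g, b i ≠ 0) (i : ℕ) (h1 : 1 ≤ i)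
    (hi : i ≤ g) : absCoeff g b (i - 1) - absCoeff g b i = al (2 * g) b (g - i + 1) := by
  rw [absCoeff_eq g b hb i hi, absCoeff_eq g b hb (i - 1) (by omega)]
  unfold al dd
  have e1 : (g : ℤ) - ((i - 1 : ℕ) : ℤ) = ((g - i + 1 : ℕ) : ℤ) := by omega
  have e2 : (g : ℤ) - (i : ℤ) = ((g - i + 1 : ℕ) : ℤ) - 1 := by omega
  rw [e1, e2]

theorem shape (g : ℕ) (b : ℕ → ℤ) (hb : ∀ i < 2 * g, b i ≠ 0) :
    ∃ k ≤ g, ConcaveOn (absCoeff g b) 0 k ∧ ConvexOn (absCoeff g b) k g := by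
  obtain ⟨p, hp, h1, h2⟩ := al_unimodal (2 * g) b hb
  refine ⟨min g (g - p + 1), by omega, ?_, ?_⟩
  · intro t ht1 ht2
    have a1 := absCoeff_sub g b hb t (by omega) (by omega)
    have a2 := absCoeff_sub g b hb (t + 1) (by omega) (by omega)
    have a3 := h2 (g - t + 1) (by omega) (by omega)
    have e1 : g - t + 1 - 1 = g - (t + 1) + 1 := by omega
    have e2 : t + 1 - 1 = t := by omega
    rw [e1] at a3
    rw [e2] at a2
    linarith
  · intro t ht1 ht2
    have a1 := absCoeff_sub g b hb t (by omega) (by omega)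
    have a2 := absCoeff_sub g b hb (t + 1) (by omega) (by omega)
    have a3 := h1 (g - t + 1) (by omega) (by omega)
    have e1 : g - t + 1 - 1 = g - (t + 1) + 1 := by omega
    have e2 : t + 1 - 1 = t := by omega
    rw [e1] at a3
    rw [e2] at a2
    linarith

theorem natDegree_eq (g : ℕ) (b : ℕ → ℤ) (hb : ∀ i < 2 * g, b i ≠ 0) :
    (alexander (2 * g) b).natDegree = 2 * g := by
  apply natDegree_eq_of_le_of_coeff_ne_zero
  · rw [natDegree_le_iff_coeff_eq_zero]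
    intro N hN
    rw [coeff_alexander _ _ hb]
    have h := (St_K (2 * g) b hb).palX (N : ℤ)
    rw [(St_K (2 * g) b hb).negX (((2 * g : ℕ) : ℤ) - N) (by omega)] at h
    rw [← h, mul_zero]
  · have h := absCoeff_eq g b hb g (le_refl _)
    unfold absCoeff at h
    have h0 := (St_K (2 * g) b hb).X0
    rw [sub_self] at h
    have e : g + g = 2 * g := by ring
    rw [e] at h
    intro hc
    rw [hc, abs_zero] at h
    rw [← h] at h0
    exact lt_irrefl _ h0

theorem signs (g : ℕ) (b : ℕ → ℤ) (hb : ∀ i < 2 * g, b i ≠ 0) :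
    ∃ s : ℤ, (s = 1 ∨ s = -1) ∧ ∀ i ≤ g, 0 < absCoeff g b i ∧
      (alexander (2 * g) b).coeff (g + i) = s * ((-1) ^ i * absCoeff g b i) ∧
      (alexander (2 * g) b).coeff (g - i) = s * ((-1) ^ i * absCoeff g b i) := by
  refine ⟨sg (2 * g) b * (-1) ^ g, ?_, ?_⟩
  · rcases sg_sq _ _ hb with h | h <;> rcases neg_one_pow_eq_or ℤ g with h' | h' <;>
      rw [h, h'] <;> simp
  · intro i hi
    have e := absCoeff_eq g b hb i hi
    have e2 : ((g - i : ℕ) : ℤ) = (g : ℤ) - i := by omega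
    have hpos := K_pos (2 * g) b hb (g - i) (by omega)
    rw [e2] at hpos
    have h2 := (St_K (2 * g) b hb).palX ((g : ℤ) - i)
    have e3 : ((2 * g : ℕ) : ℤ) - ((g : ℤ) - i) = ((g + i : ℕ) : ℤ) := by push_cast; ring
    rw [e3] at h2
    refine ⟨by rw [e]; exact hpos, ?_, ?_⟩
    · rw [coeff_alexander _ _ hb, h2, e, pow_add]; ring
    · rw [coeff_alexander _ _ hb, e2, e]
      have e4 : (-1 : ℤ) ^ (g - i) = (-1) ^ g * (-1) ^ i := by
        obtain ⟨k, rfl⟩ := Nat.exists_eq_add_of_le hi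
        rw [Nat.add_sub_cancel_left, pow_add]
        have : (-1 : ℤ) ^ i * (-1) ^ i = 1 := by
          rw [← mul_pow]; norm_num
        calc (-1 : ℤ) ^ k = ((-1) ^ i * (-1) ^ i) * (-1) ^ k := by rw [this, one_mul]
          _ = _ := by ring
      rw [e4]; ring

/-- the alternating sequence `1, -1, 1, …` -/
def alt (i : ℕ) : ℤ := (-1) ^ i

theorem alt_ne (i : ℕ) : alt i ≠ 0 := pow_ne_zero _ (by norm_num)

theorem alt_coeffs : absCoeff 3 alt 0 = 63 ∧ absCoeff 3 alt 1 = 41 ∧ absCoeff 3 alt 2 = 11 ∧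
    absCoeff 3 alt 3 = 1 := by
  refine ⟨?_, ?_, ?_, ?_⟩
  · rw [absCoeff_eq 3 alt (fun i _ => alt_ne i) 0 (by omega)]; decide
  · rw [absCoeff_eq 3 alt (fun i _ => alt_ne i) 1 (by omega)]; decide
  · rw [absCoeff_eq 3 alt (fun i _ => alt_ne i) 2 (by omega)]; decide
  · rw [absCoeff_eq 3 alt (fun i _ => alt_ne i) 3 (by omega)]; decide

/-- **Theorem.** See the claim file. -/
theorem result :
    -- (A) the Alexander coefficients of a two-bridge knot are concave, then convex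
    (∀ (g : ℕ) (b : ℕ → ℤ), (∀ i < 2 * g, b i ≠ 0) →
      (alexander (2 * g) b).natDegree = 2 * g ∧
      (∃ s : ℤ, (s = 1 ∨ s = -1) ∧ ∀ i ≤ g, 0 < absCoeff g b i ∧
        (alexander (2 * g) b).coeff (g + i) = s * ((-1) ^ i * absCoeff g b i) ∧
        (alexander (2 * g) b).coeff (g - i) = s * ((-1) ^ i * absCoeff g b i)) ∧
      ∃ k ≤ g, ConcaveOn (absCoeff g b) 0 k ∧ ConvexOn (absCoeff g b) k g) ∧
    -- (B) with convex and concave in the order printed in the question, it fails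
    (∃ b : ℕ → ℤ, (∀ i, b i ≠ 0) ∧
      absCoeff 3 b 0 = 63 ∧ absCoeff 3 b 1 = 41 ∧ absCoeff 3 b 2 = 11 ∧ absCoeff 3 b 3 = 1 ∧
      ∀ k ≤ 3, ¬ (ConvexOn (absCoeff 3 b) 0 k ∧ ConcaveOn (absCoeff 3 b) k 3)) ∧
    -- (C) the trapezoidal (even log-concave) property of the Fibonacci coefficients of the
    -- Conway polynomial of a two-bridge link
    (∀ (n : ℕ) (b : ℕ → ℤ), (∀ i < n, b i ≠ 0) → ∃ (s : ℤ) (α : ℕ → ℤ), (s = 1 ∨ s = -1) ∧
      α 0 = ∏ j ∈ Finset.range n, |b j| ∧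
      conway n b = ∑ i ∈ Finset.range (n / 2 + 1),
        C (s * ((-1) ^ i * α i)) * fibPoly (n + 1 - 2 * i) ∧
      (∀ i ≤ n / 2, 0 ≤ α i) ∧
      (∀ i j, 1 ≤ i → i ≤ j → j ≤ n / 2 → α j * α (i - 1) ≤ α i * α (j - 1)) ∧
      ∃ p ≤ n / 2, (∀ i, 1 ≤ i → i ≤ p → α (i - 1) ≤ α i) ∧
        (∀ i, p < i → i ≤ n / 2 → α i ≤ α (i - 1))) ∧
    -- (D) `conway` is the Conway polynomial: `Δ(u²) = uⁿ ∇(u⁻¹ - u)`
    (∀ (F : Type) [Field F] (u : F), u ≠ 0 → ∀ (n : ℕ) (b : ℕ → ℤ),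
      (alexander n b).eval₂ (Int.castRingHom F) (u ^ 2) =
        u ^ n * (conway n b).eval₂ (Int.castRingHom F) (u⁻¹ - u)) := by
  refine ⟨?_, ?_, ?_, ?_⟩
  · intro g b hb
    exact ⟨natDegree_eq g b hb, signs g b hb, shape g b hb⟩
  · obtain ⟨h0, h1, h2, h3⟩ := alt_coeffs
    refine ⟨alt, alt_ne, h0, h1, h2, h3, ?_⟩
    intro k hk ⟨hx, hv⟩
    by_cases hk2 : k < 2
    · have := hv 2 hk2 (by omega)
      norm_num at this
      rw [h1, h2, h3] at this
      norm_num at this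
    · have := hx 1 (by omega) (by omega)
      norm_num at this
      rw [h0, h1, h2] at this
      norm_num at this
  · intro n b hb
    refine ⟨sg n b, al n b, sg_sq n b hb, ?_, ?_, al_nonneg n b hb, al_log n b hb,
      al_unimodal n b hb⟩
    · unfold al dd
      rw [(St_K n b hb).negX _ (by norm_num : ((0 : ℕ) : ℤ) - 1 < 0), sub_zero]
      exact K_zero n b hb
    · rw [conway_fib n b hb]
      apply Finset.sum_congr rfl
      intro i _
      have e : wt n b i = sg n b * ((-1) ^ i * al n b i) := by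
        unfold wt al; ring
      rw [e]
  · intro F _ u hu n b
    exact conway_spec u hu n b

end Pool.Agent.Results.MP_7cfe9c_gt.TwoBridge
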